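import Pool.Agent.Helper92.Ru.GoalsS

/-! Packet GreedyEx (S6) of MP_d1d051_nt. -/

set_option autoImplicit false

open NumberField

namespace Pool.Agent.Helper23.Ru

open Pool.Agent.Helper92.Ru

theorem image_snoc_castSucc {α : Type*} {m : ℕ} (x : Fin m → α) (y : α) (j : Fin m) :
    (Fin.snoc x y : Fin (m + 1) → α) '' {j' | j' < Fin.castSucc j} = x '' {j' | j' < j} := by
  ext z
  constructor
  · rintro ⟨j', hj', rfl⟩
    induction j' using Fin.lastCases with
    | last =>
      exfalso
      have h : Fin.last m < Fin.castSucc j := hj'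
      exact absurd h (not_lt.2 (Fin.le_last _))
    | cast i =>
      refine ⟨i, ?_, by simp⟩
      have h : Fin.castSucc i < Fin.castSucc j := hj'
      exact Fin.castSucc_lt_castSucc_iff.1 h
  · rintro ⟨i, hi, rfl⟩
    refine ⟨Fin.castSucc i, ?_, by simp⟩
    have h : i < j := hi
    exact Fin.castSucc_lt_castSucc_iff.2 h

theorem image_snoc_last {α : Type*} {m : ℕ} (x : Fin m → α) (y : α) :
    (Fin.snoc x y : Fin (m + 1) → α) '' {j' | j' < Fin.last m} = Set.range x := by
  ext z
  constructor
  · rintro ⟨j', hj', rfl⟩
    induction j' using Fin.lastCases with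
    | last => exact absurd (show Fin.last m < Fin.last m from hj') (lt_irrefl _)
    | cast i => exact ⟨i, by simp⟩
  · rintro ⟨i, rfl⟩
    exact ⟨Fin.castSucc i, Fin.castSucc_lt_last i, by simp⟩

theorem greedyEx (H : HHLB) : GreedyEx := by
  intro k _ _ T ι _ _ _ A hA w hw
  obtain ⟨c, hc, hHH⟩ := H k T ι A hA
  have hS : 0 < ∏ v, ⨆ i, w v i := by
    apply Finset.prod_pos
    intro v _
    obtain ⟨i⟩ := (inferInstance : Nonempty ι)
    exact lt_of_lt_of_le (hw v i) (le_ciSup (Set.finite_range _).bddAbove i)
  have key : ∀ m : ℕ, m ≤ Fintype.card ι → ∃ x : Fin m → ι → k,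
      LinearIndependent k x ∧ (∀ j, SIntV T (x j)) ∧
      ∀ j, ∀ y : ι → k, SIntV T y →
        y ∉ Submodule.span k (x '' {j' | j' < j}) → HH A w (x j) ≤ 2 * HH A w y := by
    intro m
    induction m with
    | zero =>
      intro _
      exact ⟨fun j => j.elim0, linearIndependent_empty_type, fun j => j.elim0, fun j => j.elim0⟩
    | succ m ih =>
      intro hm
      obtain ⟨x, hx1, hx2, hx3⟩ := ih (by omega)
      -- a standard basis vector outside the span
      obtain ⟨i, hi⟩ : ∃ i : ι, (Pi.single i 1 : ι → k) ∉ Submodule.span k (Set.range x) := by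
        by_contra hcon
        push Not at hcon
        have htop : Submodule.span k (Set.range x) = ⊤ := by
          rw [eq_top_iff]
          rw [← (Pi.basisFun k ι).span_eq]
          apply Submodule.span_le.2
          rintro _ ⟨i, rfl⟩
          simpa using hcon i
        have h1 : Module.finrank k (Submodule.span k (Set.range x)) = m := by
          rw [finrank_span_eq_card hx1, Fintype.card_fin]
        rw [htop, finrank_top, Module.finrank_fintype_fun_eq_card] at h1
        omega
      set Y : Set (ι → k) := {y | SIntV T y ∧ y ∉ Submodule.span k (Set.range x)} with hY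
      have hne : (HH A w '' Y).Nonempty := by
        refine ⟨_, Pi.single i 1, ⟨?_, hi⟩, rfl⟩
        intro j
        by_cases hj : j = i
        · subst hj; simpa using SInt.one
        · simpa [Pi.single_eq_of_ne hj] using SInt.zero
      have hlb : ∀ r ∈ HH A w '' Y, c / ∏ v, ⨆ i, w v i ≤ r := by
        rintro _ ⟨y, ⟨hy1, hy2⟩, rfl⟩
        rw [div_le_iff₀ hS]
        apply hHH w hw y hy1
        rintro rfl
        exact hy2 (Submodule.zero_mem _)
      have hbdd : BddBelow (HH A w '' Y) := ⟨_, hlb⟩
      have hpos : 0 < sInf (HH A w '' Y) :=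
        lt_of_lt_of_le (div_pos hc hS) (le_csInf hne hlb)
      obtain ⟨_, ⟨y, hyY, rfl⟩, hlt⟩ := exists_lt_of_csInf_lt hne
        (show sInf (HH A w '' Y) < 2 * sInf (HH A w '' Y) by linarith)
      refine ⟨Fin.snoc x y, ?_, ?_, ?_⟩
      · rw [linearIndependent_finSnoc]
        exact ⟨hx1, hyY.2⟩
      · intro j
        induction j using Fin.lastCases with
        | last => simpa using hyY.1
        | cast j => simpa using hx2 j
      · intro j z hz hz2
        induction j using Fin.lastCases with
        | last =>
          rw [image_snoc_last] at hz2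
          rw [Fin.snoc_last]
          have : sInf (HH A w '' Y) ≤ HH A w z := csInf_le hbdd ⟨z, ⟨hz, hz2⟩, rfl⟩
          linarith
        | cast j =>
          rw [image_snoc_castSucc] at hz2
          rw [Fin.snoc_castSucc]
          exact hx3 j z hz hz2
  obtain ⟨x, h1, h2, h3⟩ := key _ le_rfl
  exact ⟨x, h1, h2, h3⟩

end Pool.Agent.Helper23.Ru
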